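import Pool.Agent.helper3.FT.G
import Pool.Agent.helper9.LT.NS
import Pool.Agent.helper63.LT.DM
import Pool.Agent.helper77.LT.DC

set_option autoImplicit false

/-!
# The sum of the roots of the numbers of near points
-/

namespace Pool.Agent.helper28.LT

open Finset NumberField Pool.Agent.helper3.FT Pool.Agent.helper47.RA

lemma SN_ineq (P y K q L κ s H X : ℝ) (hP : 1 ≤ P) (hy : 1 ≤ y) (hK : K = 8 * κ) (hκ : 1 ≤ κ)
    (hs : 1 ≤ s) (hq : 1 ≤ q) (hL0 : 0 ≤ L) (hL : L * s ≤ 513 * κ) (hH : H * s ^ 2 ≤ 300 * q * κ ^ 2)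
    (hPy : P * y ≤ H) (hX : q ^ 3 * κ ^ 8 / s ^ 4 + q ^ 4 * κ ^ 8 / s ^ 6 ≤ X ^ 2) :
    (P * (K * K / y)) * (P * (K * K / y) + ((q * L) ^ 3 * L * (1 + K ^ 2 / (y * P)) +
      (q * L) ^ 2 * K ^ 2 / y)) ≤ 10 ^ 16 * (X / y) ^ 2 := by
  have hs0 : 0 < s := by linarith
  have hP0 : 0 < P := by linarith
  have hy0 : 0 < y := by linarith
  have hκ0 : 0 < κ := by linarith
  have hq0 : 0 < q := by linarith
  obtain ⟨a, ha⟩ : ∃ a : ℝ, a = s⁻¹ := ⟨_, rfl⟩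
  have ha0 : 0 < a := by rw [ha]; positivity
  have hsa : s * a = 1 := by rw [ha]; exact mul_inv_cancel₀ hs0.ne'
  have hL1 : L ≤ 513 * κ * a := by
    calc L = (L * s) * a := by rw [mul_assoc, hsa, mul_one]
      _ ≤ (513 * κ) * a := mul_le_mul_of_nonneg_right hL ha0.le
  have hH1 : H ≤ 300 * q * κ ^ 2 * a ^ 2 := by
    calc H = (H * s ^ 2) * a ^ 2 := by
          rw [mul_assoc, ← mul_pow, hsa, one_pow, mul_one]
      _ ≤ (300 * q * κ ^ 2) * a ^ 2 := mul_le_mul_of_nonneg_right hH (by positivity)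
  have hPH : P ≤ H := by
    have : P * 1 ≤ P * y := mul_le_mul_of_nonneg_left hy hP0.le
    linarith
  have hX' : q ^ 3 * κ ^ 8 * a ^ 4 + q ^ 4 * κ ^ 8 * a ^ 6 ≤ X ^ 2 := by
    have e1 : q ^ 3 * κ ^ 8 / s ^ 4 = q ^ 3 * κ ^ 8 * a ^ 4 := by
      rw [ha, inv_pow]; rfl
    have e2 : q ^ 4 * κ ^ 8 / s ^ 6 = q ^ 4 * κ ^ 8 * a ^ 6 := by
      rw [ha, inv_pow]; rfl
    rw [← e1, ← e2]; exact hX
  have e1 : (P * (K * K / y)) * (P * (K * K / y) + ((q * L) ^ 3 * L * (1 + K ^ 2 / (y * P)) +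
      (q * L) ^ 2 * K ^ 2 / y)) =
      (P ^ 2 * K ^ 4 + (P * y) * K ^ 2 * (q ^ 3 * L ^ 4) + K ^ 4 * (q ^ 3 * L ^ 4) +
        P * K ^ 4 * (q ^ 2 * L ^ 2)) / y ^ 2 := by
    field_simp
    ring
  have e2 : 10 ^ 16 * (X / y) ^ 2 = (10 ^ 16 * X ^ 2) / y ^ 2 := by
    field_simp
  rw [e1, e2]
  refine div_le_div_of_nonneg_right ?_ (by positivity)
  have hL2 : L ^ 2 ≤ (513 * κ * a) ^ 2 := pow_le_pow_left₀ hL0 hL1 2
  have hL4 : L ^ 4 ≤ (513 * κ * a) ^ 4 := pow_le_pow_left₀ hL0 hL1 4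
  have hPh : P ≤ 300 * q * κ ^ 2 * a ^ 2 := hPH.trans hH1
  have hPyh : P * y ≤ 300 * q * κ ^ 2 * a ^ 2 := hPy.trans hH1
  have t1 : P ^ 2 * K ^ 4 ≤ 10 ^ 15 * (q ^ 3 * κ ^ 8 * a ^ 4) := by
    have h1 : P ^ 2 ≤ (300 * q * κ ^ 2 * a ^ 2) ^ 2 := pow_le_pow_left₀ hP0.le hPh 2
    calc P ^ 2 * K ^ 4 ≤ (300 * q * κ ^ 2 * a ^ 2) ^ 2 * K ^ 4 :=
          mul_le_mul_of_nonneg_right h1 (by positivity)
      _ = (90000 * 4096) * (q ^ 2 * κ ^ 8 * a ^ 4) := by rw [hK]; ring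
      _ ≤ 10 ^ 15 * (q ^ 3 * κ ^ 8 * a ^ 4) := by
          refine mul_le_mul (by norm_num) ?_ (by positivity) (by norm_num)
          refine mul_le_mul_of_nonneg_right (mul_le_mul_of_nonneg_right ?_ (by positivity))
            (by positivity)
          exact pow_le_pow_right₀ hq (by norm_num)
  have t2 : (P * y) * K ^ 2 * (q ^ 3 * L ^ 4) ≤ 10 ^ 16 * (q ^ 4 * κ ^ 8 * a ^ 6) := by
    calc (P * y) * K ^ 2 * (q ^ 3 * L ^ 4) ≤
          (300 * q * κ ^ 2 * a ^ 2) * K ^ 2 * (q ^ 3 * (513 * κ * a) ^ 4) := by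
          refine mul_le_mul (mul_le_mul_of_nonneg_right hPyh (by positivity))
            (mul_le_mul_of_nonneg_left hL4 (by positivity)) (by positivity) (by positivity)
      _ = (300 * 64 * 513 ^ 4) * (q ^ 4 * κ ^ 8 * a ^ 6) := by rw [hK]; ring
      _ ≤ _ := mul_le_mul_of_nonneg_right (by norm_num) (by positivity)
  have t3 : K ^ 4 * (q ^ 3 * L ^ 4) ≤ 10 ^ 15 * (q ^ 3 * κ ^ 8 * a ^ 4) := by
    calc K ^ 4 * (q ^ 3 * L ^ 4) ≤ K ^ 4 * (q ^ 3 * (513 * κ * a) ^ 4) :=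
          mul_le_mul_of_nonneg_left (mul_le_mul_of_nonneg_left hL4 (by positivity)) (by positivity)
      _ = (4096 * 513 ^ 4) * (q ^ 3 * κ ^ 8 * a ^ 4) := by rw [hK]; ring
      _ ≤ _ := mul_le_mul_of_nonneg_right (by norm_num) (by positivity)
  have t4 : P * K ^ 4 * (q ^ 2 * L ^ 2) ≤ 10 ^ 15 * (q ^ 3 * κ ^ 8 * a ^ 4) := by
    calc P * K ^ 4 * (q ^ 2 * L ^ 2) ≤
          (300 * q * κ ^ 2 * a ^ 2) * K ^ 4 * (q ^ 2 * (513 * κ * a) ^ 2) := by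
          refine mul_le_mul (mul_le_mul_of_nonneg_right hPh (by positivity))
            (mul_le_mul_of_nonneg_left hL2 (by positivity)) (by positivity) (by positivity)
      _ = (300 * 4096 * 513 ^ 2) * (q ^ 3 * κ ^ 8 * a ^ 4) := by rw [hK]; ring
      _ ≤ _ := mul_le_mul_of_nonneg_right (by norm_num) (by positivity)
  have h0 : 0 ≤ q ^ 3 * κ ^ 8 * a ^ 4 := by positivity
  have h00 : 0 ≤ q ^ 4 * κ ^ 8 * a ^ 6 := by positivity
  linarith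

/-- the main term -/
noncomputable def SN_X (κ s q : ℕ) : ℝ :=
  (q : ℝ) ^ (3 / 2 : ℝ) * (κ : ℝ) ^ 4 / (s : ℝ) ^ 2 * (1 + √q / s)

lemma SN_X_sq (κ s q : ℕ) (hs : 1 ≤ s) :
    (q : ℝ) ^ 3 * (κ : ℝ) ^ 8 / (s : ℝ) ^ 4 + (q : ℝ) ^ 4 * (κ : ℝ) ^ 8 / (s : ℝ) ^ 6 ≤
      SN_X κ s q ^ 2 := by
  have hs0 : (0 : ℝ) < s := by exact_mod_cast hs
  have h1 : ((q : ℝ) ^ (3 / 2 : ℝ)) ^ 2 = (q : ℝ) ^ 3 := by
    rw [← Real.rpow_natCast, ← Real.rpow_mul (by positivity), ← Real.rpow_natCast]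
    norm_num
  have h2 : (√(q : ℝ)) ^ 2 = q := Real.sq_sqrt (by positivity)
  have h3 : SN_X κ s q ^ 2 =
      (q : ℝ) ^ 3 * (κ : ℝ) ^ 8 / (s : ℝ) ^ 4 * (1 + √q / s) ^ 2 := by
    unfold SN_X
    rw [← h1]
    ring
  rw [h3]
  have h4 : 1 + (q : ℝ) / (s : ℝ) ^ 2 ≤ (1 + √q / s) ^ 2 := by
    have h5 : (1 + √(q : ℝ) / s) ^ 2 = 1 + (√(q : ℝ)) ^ 2 / (s : ℝ) ^ 2 + 2 * (√q / s) := by ring
    rw [h5, h2]
    have : 0 ≤ √(q : ℝ) / s := by positivity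
    linarith
  calc (q : ℝ) ^ 3 * (κ : ℝ) ^ 8 / (s : ℝ) ^ 4 + (q : ℝ) ^ 4 * (κ : ℝ) ^ 8 / (s : ℝ) ^ 6
      = (q : ℝ) ^ 3 * (κ : ℝ) ^ 8 / (s : ℝ) ^ 4 * (1 + (q : ℝ) / (s : ℝ) ^ 2) := by
        field_simp
    _ ≤ _ := mul_le_mul_of_nonneg_left h4 (by positivity)

lemma SN_X_nonneg (κ s q : ℕ) : 0 ≤ SN_X κ s q := by
  unfold SN_X
  positivity

/-- NS -/
theorem SN_near (K M' M q L d P y : ℕ) (hq : 1 ≤ q) (hM' : 1 ≤ M') (hqM : q * M' ≤ M)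
    (hMq : M ≤ 2 * q * M') (hL : K ^ 3 ≤ L * M) (hd : 1 ≤ d) (hP : 1 ≤ P)
    (r : ℕ × ℕ → ℤ × ℤ × ℤ)
    (hr : ∀ p : ℕ × ℕ, 1 ≤ p.1 → 1 ≤ p.2 → Nat.Coprime p.1 p.2 → Nat.Coprime q p.1 →
      ResQ p.1 p.2 q (r p).1 (r p).2.1 (r p).2.2) :
    ∑ h ∈ (Ico P (2 * P)).filter (fun h => 32 * (d * h) * M ≤ q * L * K ^ 3),
      ∑ p ∈ (pairs K K y).filter (fun p => Nat.Coprime h (5 * (p.1 * p.2)) ∧ Nat.Coprime q p.1),
        nearN M' M r (d * h) p ≤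
      P * (pairs K K y).card + ((dualSetQ K y P q L).card : ℝ) :=
  near_sumQ_of dual_mapQ K M' M q L d P y hq hM' hqM hMq hL hd hP r hr

/-- one divisor and one dyadic range -/
theorem SN_range (δ : ℝ) (hδ : 0 < δ) : ∃ C : ℝ, 1 ≤ C ∧ ∀ κ s q H M' d P : ℕ, 1 ≤ s → s ≤ κ →
    1 ≤ q → q ≤ κ → 1 ≤ M' → q * M' ≤ κ ^ 2 * s → κ ^ 2 * s ≤ 2 * q * M' →
    H * s ^ 2 ≤ 300 * q * κ ^ 2 → 1 ≤ d → 1 ≤ P → ∀ r : ℕ × ℕ → ℤ × ℤ × ℤ,
    (∀ p : ℕ × ℕ, 1 ≤ p.1 → 1 ≤ p.2 → Nat.Coprime p.1 p.2 → Nat.Coprime q p.1 →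
      ResQ p.1 p.2 q (r p).1 (r p).2.1 (r p).2.2) →
    ∑ h ∈ (Ico P (2 * P)).filter (fun h => d * h ≤ H),
      ∑ p ∈ (pairs (8 * κ) (8 * κ) (yy d)).filter (fun p => Nat.Coprime h (5 * (p.1 * p.2))),
        (if Nat.Coprime q p.1 then √(nearN M' (κ ^ 2 * s) r (d * h) p) else 0) ≤
      C * ((1000 * κ ^ 2 : ℕ) : ℝ) ^ (2 * δ) * (SN_X κ s q / (yy d : ℝ)) := by
  classical
  obtain ⟨C2, hC2, hO⟩ := two_pow_omega_le δ hδ
  obtain ⟨C3, hC3, hD⟩ := dual_countQ δ hδ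
  set CC : ℝ := C2 * (C2 + C3) * 10 ^ 16 + 1 with hCC
  have hCC1 : 1 ≤ CC := by
    rw [hCC]
    have : 0 ≤ C2 * (C2 + C3) * 10 ^ 16 := by positivity
    linarith
  refine ⟨CC, hCC1, ?_⟩
  intro κ s q H M' d P hs hsκ hq hqκ hM' hqM hMq hH hd hP r hr
  have hκ : 1 ≤ κ := hs.trans hsκ
  set T : ℕ := 1000 * κ ^ 2 with hT
  have hκκ : κ ≤ κ ^ 2 := Nat.le_self_pow (by norm_num) κ
  have hκ513 : 513 * κ ≤ T := by
    rw [hT]
    exact Nat.mul_le_mul (by norm_num) hκκ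
  have hT1 : 1 ≤ T := by omega
  have hTR : (1 : ℝ) ≤ T := by exact_mod_cast hT1
  set y := yy d with hyd
  have hy : 1 ≤ y := yy_pos d
  have hyR : (1 : ℝ) ≤ y := by exact_mod_cast hy
  set L : ℕ := 512 * κ / s + 1 with hL
  have hLs : L * s ≤ 513 * κ := by
    have h1 : 512 * κ / s * s ≤ 512 * κ := Nat.div_mul_le_self _ _
    rw [hL, add_mul, one_mul]
    omega
  have hLs' : 512 * κ ≤ L * s := by
    have h1 := (Nat.lt_mul_div_succ (512 * κ) hs).le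
    rw [hL, mul_comm (512 * κ / s + 1) s]
    exact h1
  have hL1 : 1 ≤ L := by rw [hL]; exact Nat.le_add_left _ _
  have hLκ : L ≤ 513 * κ := (Nat.le_mul_of_pos_right L hs).trans hLs
  have hKL : (8 * κ) ^ 3 ≤ L * (κ ^ 2 * s) := by
    calc (8 * κ) ^ 3 = (512 * κ) * κ ^ 2 := by ring
      _ ≤ (L * s) * κ ^ 2 := Nat.mul_le_mul_right _ hLs'
      _ = _ := by ring
  have hHκ : H ≤ 300 * q * κ ^ 2 :=
    (Nat.le_mul_of_pos_right H (Nat.pow_pos hs)).trans hH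
  have hHT : H ≤ T ^ 2 := by
    refine hHκ.trans ?_
    have h1 : 300 * q * κ ^ 2 ≤ 300 * κ * κ ^ 2 :=
      Nat.mul_le_mul_right _ (Nat.mul_le_mul_left _ hqκ)
    refine h1.trans ?_
    rw [hT]
    calc 300 * κ * κ ^ 2 = 300 * (κ ^ 2 * κ) := by ring
      _ ≤ 1000000 * (κ ^ 2 * κ ^ 2) :=
        Nat.mul_le_mul (by norm_num) (Nat.mul_le_mul_left _ hκκ)
      _ = _ := by ring
  -- the sets
  set HS := (Ico P (2 * P)).filter (fun h => d * h ≤ H) with hHS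
  set PS : ℕ → Finset (ℕ × ℕ) := fun h => (pairs (8 * κ) (8 * κ) y).filter
    (fun p => Nat.Coprime h (5 * (p.1 * p.2)) ∧ Nat.Coprime q p.1) with hPS
  have hsum : ∑ h ∈ HS, ∑ p ∈ (pairs (8 * κ) (8 * κ) y).filter
      (fun p => Nat.Coprime h (5 * (p.1 * p.2))),
        (if Nat.Coprime q p.1 then √(nearN M' (κ ^ 2 * s) r (d * h) p) else 0) =
      ∑ h ∈ HS, ∑ p ∈ PS h, √(nearN M' (κ ^ 2 * s) r (d * h) p) := by
    refine Finset.sum_congr rfl fun h _ => ?_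
    rw [← Finset.sum_filter, Finset.filter_filter]
  rw [hsum]
  rcases HS.eq_empty_or_nonempty with hemp | ⟨h0, hh0⟩
  · rw [hemp, Finset.sum_empty]
    have := SN_X_nonneg κ s q
    positivity
  have hdP : d * P ≤ H := by
    rw [hHS, mem_filter, mem_Ico] at hh0
    exact (Nat.mul_le_mul_left _ hh0.1.1).trans hh0.2
  have hyd2 : y ≤ d := Nat.le_of_dvd hd (yy_dvd d)
  have hPy : P * y ≤ H := by
    calc P * y ≤ P * d := Nat.mul_le_mul_left _ hyd2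
      _ = d * P := mul_comm _ _
      _ ≤ H := hdP
  have hyT : y ≤ T ^ 2 := ((Nat.le_mul_of_pos_left y hP).trans hPy).trans hHT
  have hPT : P ≤ T ^ 4 := by
    have h1 : P ≤ P * y := Nat.le_mul_of_pos_right P hy
    have h2 : T ^ 2 ≤ T ^ 4 := Nat.pow_le_pow_right hT1 (by norm_num)
    omega
  -- Cauchy-Schwarz
  have hnn : ∀ h p, 0 ≤ nearN M' (κ ^ 2 * s) r h p := fun h p => Nat.cast_nonneg _
  have hcs : (∑ h ∈ HS, ∑ p ∈ PS h, √(nearN M' (κ ^ 2 * s) r (d * h) p)) ^ 2 ≤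
      ((P : ℝ) * (pairs (8 * κ) (8 * κ) y).card) *
        ∑ h ∈ HS, ∑ p ∈ PS h, nearN M' (κ ^ 2 * s) r (d * h) p := by
    have e1 : ∑ h ∈ HS, ∑ p ∈ PS h, nearN M' (κ ^ 2 * s) r (d * h) p =
        ∑ h ∈ HS, ∑ p ∈ PS h, (√(nearN M' (κ ^ 2 * s) r (d * h) p)) ^ 2 :=
      Finset.sum_congr rfl fun h _ => Finset.sum_congr rfl fun p _ =>
        (Real.sq_sqrt (hnn _ _)).symm
    rw [e1, Finset.sum_sigma' HS PS, Finset.sum_sigma' HS PS]
    refine (sq_sum_le_card_mul_sum_sq).trans ?_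
    refine mul_le_mul_of_nonneg_right ?_ (Finset.sum_nonneg fun _ _ => sq_nonneg _)
    rw [Finset.card_sigma]
    have h1 : ∑ h ∈ HS, (PS h).card ≤ P * (pairs (8 * κ) (8 * κ) y).card := by
      calc ∑ h ∈ HS, (PS h).card ≤ ∑ _h ∈ HS, (pairs (8 * κ) (8 * κ) y).card :=
            Finset.sum_le_sum fun h _ => Finset.card_filter_le _ _
        _ = HS.card * (pairs (8 * κ) (8 * κ) y).card := by rw [Finset.sum_const, smul_eq_mul]
        _ ≤ P * (pairs (8 * κ) (8 * κ) y).card := by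
            refine Nat.mul_le_mul_right _ ?_
            refine (Finset.card_filter_le _ _).trans ?_
            rw [Nat.card_Ico]; omega
    exact_mod_cast h1
  have hns := SN_near (8 * κ) M' (κ ^ 2 * s) q L d P y hq hM' hqM hMq hKL hd hP r hr
  have hHSsub : ∑ h ∈ HS, ∑ p ∈ PS h, nearN M' (κ ^ 2 * s) r (d * h) p ≤
      P * (pairs (8 * κ) (8 * κ) y).card + ((dualSetQ (8 * κ) y P q L).card : ℝ) := by
    refine le_trans (Finset.sum_le_sum_of_subset_of_nonneg ?_ fun h _ _ =>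
      Finset.sum_nonneg fun p _ => hnn _ _) hns
    intro h hh
    rw [hHS, mem_filter] at hh
    rw [mem_filter]
    refine ⟨hh.1, ?_⟩
    have h1 : 32 * (d * h) * (κ ^ 2 * s) ≤ 32 * H * (κ ^ 2 * s) :=
      Nat.mul_le_mul_right _ (Nat.mul_le_mul_left _ hh.2)
    refine h1.trans ?_
    have h2 : s * (32 * H * (κ ^ 2 * s)) ≤ s * (q * L * (8 * κ) ^ 3) := by
      calc s * (32 * H * (κ ^ 2 * s)) = 32 * κ ^ 2 * (H * s ^ 2) := by ring
        _ ≤ 32 * κ ^ 2 * (300 * q * κ ^ 2) := Nat.mul_le_mul_left _ hH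
        _ = 9600 * (q * κ ^ 4) := by ring
        _ ≤ 262144 * (q * κ ^ 4) := Nat.mul_le_mul_right _ (by norm_num)
        _ = (512 * κ) * (q * (8 * κ) ^ 3) := by ring
        _ ≤ (L * s) * (q * (8 * κ) ^ 3) := Nat.mul_le_mul_right _ hLs'
        _ = _ := by ring
    exact Nat.le_of_mul_le_mul_left h2 hs
  -- the number of pairs
  set K : ℝ := 8 * (κ : ℝ) with hK
  have hKc : ((8 * κ : ℕ) : ℝ) = K := by rw [hK]; push_cast; ring
  set t : ℝ := (T : ℝ) ^ (2 * δ) with ht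
  have hpairs : ((pairs (8 * κ) (8 * κ) y).card : ℝ) ≤ C2 * t * (K * K / y) := by
    refine (pairs_card (8 * κ) (8 * κ) y (yy_squarefree d)).trans ?_
    rw [hKc]
    refine mul_le_mul_of_nonneg_right ((hO y hy).trans ?_) (by positivity)
    refine mul_le_mul_of_nonneg_left ?_ (by linarith)
    have hyT' : (y : ℝ) ≤ (T : ℝ) ^ 2 := by exact_mod_cast hyT
    calc (y : ℝ) ^ δ ≤ ((T : ℝ) ^ 2) ^ δ := Real.rpow_le_rpow (by linarith) hyT' hδ.le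
      _ = (T : ℝ) ^ (2 * δ) := by
        rw [← Real.rpow_natCast, ← Real.rpow_mul (by linarith)]; norm_num
  have hdual := hD T (8 * κ) y P q L (by omega) (by omega) hP hPT hq
    (by omega) hL1 (by omega) (yy_squarefree d)
  rw [hKc] at hdual
  have ht1 : 1 ≤ t := Real.one_le_rpow hTR (by positivity)
  have htδ : (T : ℝ) ^ δ ≤ t := Real.rpow_le_rpow_of_exponent_le hTR (by linarith)
  have hPR : (1 : ℝ) ≤ P := by exact_mod_cast hP
  have hκR : (1 : ℝ) ≤ κ := by exact_mod_cast hκ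
  have hK0 : 0 < K := by rw [hK]; linarith
  set Dd : ℝ := ((q : ℝ) * L) ^ 3 * L * (1 + K ^ 2 / (y * P)) + ((q : ℝ) * L) ^ 2 * K ^ 2 / y
    with hDd
  have hDd0 : 0 ≤ Dd := by positivity
  have b1 : (P : ℝ) * (pairs (8 * κ) (8 * κ) y).card + ((dualSetQ (8 * κ) y P q L).card : ℝ) ≤
      (C2 + C3) * t * (P * (K * K / y) + Dd) := by
    have h1 : (P : ℝ) * (pairs (8 * κ) (8 * κ) y).card ≤ C2 * t * (P * (K * K / y)) := by
      calc (P : ℝ) * (pairs (8 * κ) (8 * κ) y).card ≤ P * (C2 * t * (K * K / y)) :=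
            mul_le_mul_of_nonneg_left hpairs (by positivity)
        _ = _ := by ring
    have h2 : ((dualSetQ (8 * κ) y P q L).card : ℝ) ≤ C3 * t * Dd := by
      refine hdual.trans (mul_le_mul_of_nonneg_right ?_ (by positivity))
      exact mul_le_mul_of_nonneg_left htδ (by linarith)
    have h3 : 0 ≤ C2 * t * Dd := by positivity
    have h4 : 0 ≤ C3 * t * (P * (K * K / y)) := by positivity
    calc _ ≤ C2 * t * (P * (K * K / y)) + C3 * t * Dd := add_le_add h1 h2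
      _ ≤ C2 * t * (P * (K * K / y)) + C3 * t * Dd + (C2 * t * Dd + C3 * t * (P * (K * K / y))) := by
          linarith
      _ = _ := by ring
  have hcore := SN_ineq P y K q L κ s H (SN_X κ s q) hPR hyR hK hκR (by exact_mod_cast hs)
    (by exact_mod_cast hq) (by positivity) (by exact_mod_cast hLs) (by exact_mod_cast hH)
    (by exact_mod_cast hPy) (SN_X_sq κ s q hs)
  rw [← hDd] at hcore
  set V : ℝ := SN_X κ s q / (y : ℝ) with hV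
  have hV0 : 0 ≤ V := div_nonneg (SN_X_nonneg κ s q) (by linarith)
  have hfin : (∑ h ∈ HS, ∑ p ∈ PS h, √(nearN M' (κ ^ 2 * s) r (d * h) p)) ^ 2 ≤
      (CC * t * V) ^ 2 := by
    calc (∑ h ∈ HS, ∑ p ∈ PS h, √(nearN M' (κ ^ 2 * s) r (d * h) p)) ^ 2
        ≤ ((P : ℝ) * (pairs (8 * κ) (8 * κ) y).card) *
          ∑ h ∈ HS, ∑ p ∈ PS h, nearN M' (κ ^ 2 * s) r (d * h) p := hcs
      _ ≤ (P * (C2 * t * (K * K / y))) * ((C2 + C3) * t * (P * (K * K / y) + Dd)) := by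
          refine mul_le_mul (mul_le_mul_of_nonneg_left hpairs (by positivity))
            (hHSsub.trans b1)
            (Finset.sum_nonneg fun _ _ => Finset.sum_nonneg fun _ _ => hnn _ _) (by positivity)
      _ = (C2 * (C2 + C3)) * t ^ 2 * ((P * (K * K / y)) * (P * (K * K / y) + Dd)) := by ring
      _ ≤ (C2 * (C2 + C3)) * t ^ 2 * (10 ^ 16 * V ^ 2) := by
          exact mul_le_mul_of_nonneg_left hcore (by positivity)
      _ = (C2 * (C2 + C3) * 10 ^ 16) * (t ^ 2 * V ^ 2) := by ring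
      _ ≤ CC * (t ^ 2 * V ^ 2) := by
          refine mul_le_mul_of_nonneg_right ?_ (by positivity)
          rw [hCC]; linarith
      _ ≤ (CC * CC) * (t ^ 2 * V ^ 2) := by
          refine mul_le_mul_of_nonneg_right ?_ (by positivity)
          exact le_mul_of_one_le_left (by linarith) hCC1
      _ = _ := by ring
  exact abs_le_of_sq_le_sq' hfin (by positivity) |>.2

/-- SN -/
theorem sum_near (ε : ℝ) (hε : 0 < ε) : ∃ C : ℝ, 1 ≤ C ∧ ∀ κ s q H M' : ℕ, 1 ≤ s → s ≤ κ →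
    1 ≤ q → q ≤ κ → 1 ≤ M' → q * M' ≤ κ ^ 2 * s → κ ^ 2 * s ≤ 2 * q * M' →
    H * s ^ 2 ≤ 300 * q * κ ^ 2 → ∀ r : ℕ × ℕ → ℤ × ℤ × ℤ,
    (∀ p : ℕ × ℕ, 1 ≤ p.1 → 1 ≤ p.2 → Nat.Coprime p.1 p.2 → Nat.Coprime q p.1 →
      ResQ p.1 p.2 q (r p).1 (r p).2.1 (r p).2.2) →
    ∑ p ∈ (pairs (8 * κ) (8 * κ) 1).filter (fun p => Nat.Coprime q p.1),
      ∑ h ∈ Icc 1 H, √(nearN M' (κ ^ 2 * s) r h p) ≤
      C * (κ : ℝ) ^ ε * ((q : ℝ) ^ (3 / 2 : ℝ) * (κ : ℝ) ^ 4 / (s : ℝ) ^ 2 * (1 + √q / s)) := by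
  classical
  set δ := ε / 10 with hδdef
  have hδ : 0 < δ := by positivity
  obtain ⟨C0, hC0, hone⟩ := SN_range δ hδ
  obtain ⟨CS, hCS, hsum⟩ := yy_sum δ hδ
  set cJ : ℝ := 1 + 2 / (δ * Real.log 2) with hcJ
  have hl2 : 0 < Real.log 2 := Real.log_pos (by norm_num)
  have hcJ1 : 1 ≤ cJ := by
    rw [hcJ]
    have : 0 ≤ 2 / (δ * Real.log 2) := by positivity
    linarith
  have h1000 : (1 : ℝ) ≤ (1000 : ℝ) ^ (5 * δ) := Real.one_le_rpow (by norm_num) (by positivity)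
  refine ⟨(C0 * CS * cJ) * (1000 : ℝ) ^ (5 * δ), ?_, ?_⟩
  · have h1 : 1 ≤ C0 * CS := one_le_mul_of_one_le_of_one_le hC0 hCS
    have h2 : 1 ≤ C0 * CS * cJ := one_le_mul_of_one_le_of_one_le h1 hcJ1
    exact one_le_mul_of_one_le_of_one_le h2 h1000
  intro κ s q H M' hs hsκ hq hqκ hM' hqM hMq hH r hr
  have hκ : 1 ≤ κ := hs.trans hsκ
  have hX0 := SN_X_nonneg κ s q
  rcases Nat.eq_zero_or_pos H with hH0 | hH0
  · subst hH0
    simp only [show Icc 1 0 = (∅ : Finset ℕ) from rfl, Finset.sum_empty, Finset.sum_const_zero]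
    positivity
  have hκκ : κ ≤ κ ^ 2 := Nat.le_self_pow (by norm_num) κ
  have hHκ : H ≤ 300 * q * κ ^ 2 :=
    (Nat.le_mul_of_pos_right H (Nat.pow_pos hs)).trans hH
  have hHT : H ≤ (1000 * κ ^ 2) ^ 2 := by
    refine hHκ.trans ?_
    have h1 : 300 * q * κ ^ 2 ≤ 300 * κ * κ ^ 2 :=
      Nat.mul_le_mul_right _ (Nat.mul_le_mul_left _ hqκ)
    refine h1.trans ?_
    calc 300 * κ * κ ^ 2 = 300 * (κ ^ 2 * κ) := by ring
      _ ≤ 1000000 * (κ ^ 2 * κ ^ 2) :=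
        Nat.mul_le_mul (by norm_num) (Nat.mul_le_mul_left _ hκκ)
      _ = _ := by ring
  set T : ℕ := 1000 * κ ^ 2 with hT
  have hT1 : 1 ≤ T := by rw [hT]; omega
  have hTR : (1 : ℝ) ≤ T := by exact_mod_cast hT1
  have hκR : (1 : ℝ) ≤ κ := by exact_mod_cast hκ
  set f : ℕ → ℕ × ℕ → ℝ :=
    fun h p => if Nat.Coprime q p.1 then √(nearN M' (κ ^ 2 * s) r h p) else 0 with hf
  have hf0 : ∀ h p, 0 ≤ f h p := by
    intro h p
    simp only [hf]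
    split_ifs
    · exact Real.sqrt_nonneg _
    · exact le_rfl
  have e1 : ∑ p ∈ (pairs (8 * κ) (8 * κ) 1).filter (fun p => Nat.Coprime q p.1),
      ∑ h ∈ Icc 1 H, √(nearN M' (κ ^ 2 * s) r h p) =
      ∑ p ∈ pairs (8 * κ) (8 * κ) 1, ∑ h ∈ Icc 1 H, f h p := by
    rw [Finset.sum_filter]
    refine Finset.sum_congr rfl fun p _ => ?_
    simp only [hf]
    split_ifs
    · rfl
    · simp
  rw [e1]
  have hJ : H < 2 ^ (Nat.log 2 H + 1) := Nat.lt_pow_succ_log_self (by norm_num) H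
  refine (cover_sum (8 * κ) (8 * κ) H (Nat.log 2 H + 1) hJ f hf0).trans ?_
  have h2 : ∀ d ∈ Icc 1 H, ∀ j ∈ range (Nat.log 2 H + 1),
      ∑ h ∈ (Ico (2 ^ j) (2 * 2 ^ j)).filter (fun h => d * h ≤ H),
        ∑ p ∈ (pairs (8 * κ) (8 * κ) (yy d)).filter
          (fun p => Nat.Coprime h (5 * (p.1 * p.2))), f (d * h) p ≤
        C0 * (T : ℝ) ^ (2 * δ) * (SN_X κ s q / (yy d : ℝ)) := by
    intro d hd j _
    exact hone κ s q H M' d (2 ^ j) hs hsκ hq hqκ hM' hqM hMq hH (mem_Icc.1 hd).1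
      (Nat.one_le_two_pow) r hr
  calc _ ≤ ∑ d ∈ Icc 1 H, ∑ _j ∈ range (Nat.log 2 H + 1),
        C0 * (T : ℝ) ^ (2 * δ) * (SN_X κ s q / (yy d : ℝ)) :=
        Finset.sum_le_sum fun d hd => Finset.sum_le_sum fun j hj => h2 d hd j hj
    _ = (((Nat.log 2 H + 1 : ℕ) : ℝ) * (C0 * (T : ℝ) ^ (2 * δ) * SN_X κ s q)) *
        ∑ d ∈ Icc 1 H, (1 : ℝ) / (yy d : ℝ) := by
        rw [Finset.mul_sum]
        refine Finset.sum_congr rfl fun d _ => ?_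
        rw [Finset.sum_const, card_range, nsmul_eq_mul]
        ring
    _ ≤ ((cJ * (T : ℝ) ^ δ) * (C0 * (T : ℝ) ^ (2 * δ) * SN_X κ s q)) *
        (CS * (T : ℝ) ^ (2 * δ)) := by
        refine mul_le_mul ?_ ?_ (Finset.sum_nonneg fun _ _ => by positivity) (by positivity)
        · exact mul_le_mul_of_nonneg_right (log_bound δ hδ T H hT1 hH0 hHT) (by positivity)
        · refine (hsum H hH0).trans (mul_le_mul_of_nonneg_left ?_ (by linarith))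
          have h5 : (H : ℝ) ≤ (T : ℝ) ^ 2 := by exact_mod_cast hHT
          calc (H : ℝ) ^ δ ≤ ((T : ℝ) ^ 2) ^ δ := Real.rpow_le_rpow (by positivity) h5 hδ.le
            _ = (T : ℝ) ^ (2 * δ) := by
              rw [← Real.rpow_natCast, ← Real.rpow_mul (by linarith)]; norm_num
    _ = (C0 * CS * cJ) * ((T : ℝ) ^ (5 * δ) * SN_X κ s q) := by
        have h6 : (T : ℝ) ^ (5 * δ) = (T : ℝ) ^ δ * (T : ℝ) ^ (2 * δ) * (T : ℝ) ^ (2 * δ) := by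
          rw [← Real.rpow_add (by linarith), ← Real.rpow_add (by linarith)]
          congr 1; ring
        rw [h6]; ring
    _ = (C0 * CS * cJ) * (1000 : ℝ) ^ (5 * δ) * (κ : ℝ) ^ ε * SN_X κ s q := by
        have h7 : (T : ℝ) ^ (5 * δ) = (1000 : ℝ) ^ (5 * δ) * (κ : ℝ) ^ ε := by
          have h8 : (T : ℝ) = 1000 * (κ : ℝ) ^ 2 := by rw [hT]; push_cast; ring
          rw [h8, Real.mul_rpow (by norm_num) (by positivity), ← Real.rpow_natCast,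
            ← Real.rpow_mul (by linarith)]
          congr 2
          rw [hδdef]; push_cast; ring
        rw [h7]; ring
    _ = _ := rfl

end Pool.Agent.helper28.LT
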