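import Pool.Agent.helper28.LT.Defs

set_option autoImplicit false

/-!
# Arithmetic of one tuple: bad and good primes
-/

namespace Pool.Agent.helper28.LT

open Finset NumberField Pool.Agent.helper3.FT Pool.Agent.helper47.RA

lemma TB_ne {κ s n k : ℕ} {m g Z Λ D : ℤ} (h : Tup κ s n k m g Z Λ D) :
    1 ≤ κ ∧ ¬ (n : ℤ) ∣ 4 ∧ ¬ (k : ℤ) ∣ 4 := by
  have h0 : 1 ≤ κ := by
    have h1 := h.hn.pos
    have h2 := h.n2
    omega
  have h1 := h.n1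
  have h2 := h.k1
  refine ⟨h0, fun h3 => ?_, fun h3 => ?_⟩
  · have := Int.le_of_dvd (by norm_num) h3
    omega
  · have := Int.le_of_dvd (by norm_num) h3
    omega

lemma TB_nk {κ s n k : ℕ} {m g Z Λ D : ℤ} (h : Tup κ s n k m g Z Λ D) :
    ¬ (n : ℤ) ∣ (k : ℤ) ∧ ¬ (k : ℤ) ∣ (n : ℤ) := by
  refine ⟨fun h1 => ?_, fun h1 => ?_⟩
  · exact h.hnk ((Nat.prime_dvd_prime_iff_eq h.hn h.hk).1 (by exact_mod_cast h1))
  · exact h.hnk ((Nat.prime_dvd_prime_iff_eq h.hk h.hn).1 (by exact_mod_cast h1)).symm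

/-- the second form of `e4` -/
lemma TB_e4 {κ s n k : ℕ} {m g Z Λ D : ℤ} (h : Tup κ s n k m g Z Λ D) :
    D * ((n : ℤ) * k) ^ 2 = (Z * g + Λ * m) ^ 2 - 4 * Z * Λ ^ 2 * (n : ℤ) ^ 2 := by
  have h1 := h.e4
  have h2 := h.e1
  have h3 : (4 * Z * Λ) * (m * g) = (4 * Z * Λ) * (Λ * (n : ℤ) ^ 2 - Z * (k : ℤ) ^ 2) := by
    rw [h2]
  linear_combination h1 - h3

/-- TB1 -/
theorem Tup.bad {κ s n k : ℕ} {m g Z Λ D : ℤ} (h : Tup κ s n k m g Z Λ D) (f : ℕ) (D₀ : ℤ)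
    (hD : D = (f : ℤ) ^ 2 * D₀) (q : ℕ) (hq : q.Prime) (hf : q ∣ f) (hZ : (q : ℤ) ∣ Z) :
    q ≠ n ∧ q ≠ k ∧ (q : ℤ) ∣ Λ ∧ (q : ℤ) ∣ m * g := by
  have hqp : Prime (q : ℤ) := Nat.prime_iff_prime_int.1 hq
  have hnp : Prime (n : ℤ) := Nat.prime_iff_prime_int.1 h.hn
  have hkp : Prime (k : ℤ) := Nat.prime_iff_prime_int.1 h.hk
  obtain ⟨hκ, hn4, hk4⟩ := TB_ne h
  obtain ⟨hnk, hkn⟩ := TB_nk h
  have hqD : (q : ℤ) ^ 2 ∣ D := by
    rw [hD]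
    exact Dvd.dvd.mul_right (pow_dvd_pow_of_dvd (by exact_mod_cast hf) 2) _
  have hn0 : (n : ℤ) ≠ 0 := hnp.ne_zero
  have hk0 : (k : ℤ) ≠ 0 := hkp.ne_zero
  -- q = n
  have hqn : q ≠ n := by
    rintro rfl
    have h1 : ¬ (q : ℤ) ∣ m := fun h2 => h.r5 ⟨hZ, h2⟩
    have h2 : (q : ℤ) ∣ m * g := by
      rw [h.e1]
      refine dvd_sub ?_ ?_
      · exact Dvd.dvd.mul_left (dvd_pow_self _ (by norm_num)) _
      · exact Dvd.dvd.mul_right hZ _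
    have h3 : (q : ℤ) ∣ g := (hnp.dvd_or_dvd h2).resolve_left h1
    have h4 : (q : ℤ) ∣ Λ := by
      have h5 : (q : ℤ) ∣ Λ * (k : ℤ) ^ 2 := by
        have h6 : (q : ℤ) ∣ g ^ 2 := dvd_pow h3 (by norm_num)
        have h7 := dvd_sub h6 h.e3
        have h8 : g ^ 2 - (g ^ 2 - Λ * (k : ℤ) ^ 2) = Λ * (k : ℤ) ^ 2 := by ring
        rwa [h8] at h7
      rcases hnp.dvd_or_dvd h5 with h6 | h6
      · exact h6
      · exact absurd (hnp.dvd_of_dvd_pow h6) hnk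
    obtain ⟨Z1, hZ1⟩ := hZ
    obtain ⟨L1, hL1⟩ := h4
    obtain ⟨g1, hg1⟩ := h3
    have he := h.e4
    -- k ∣ L1 * m - Z g1 ...
    have h5 : (k : ℤ) ∣ Z1 * g - L1 * m := by
      have h6 : (k : ℤ) ^ 2 * (D * (q : ℤ) ^ 2 + 4 * Z ^ 2 * Λ) = ((q : ℤ) * (Z1 * g - L1 * m)) ^ 2 := by
        have h7 : (Z * g - Λ * m) = (q : ℤ) * (Z1 * g - L1 * m) := by
          rw [hZ1, hL1]; ring
        rw [← h7]
        linear_combination he
      have h8 : (k : ℤ) ∣ ((q : ℤ) * (Z1 * g - L1 * m)) ^ 2 := by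
        rw [← h6]
        exact Dvd.dvd.mul_right (dvd_pow_self _ (by norm_num)) _
      have h9 := hkp.dvd_of_dvd_pow h8
      exact (hkp.dvd_or_dvd h9).resolve_left hkn
    obtain ⟨p1, hp1⟩ := h5
    have h6 : D = p1 ^ 2 - 4 * (q : ℤ) * Z1 ^ 2 * L1 := by
      have h7 : ((q : ℤ) * k) ^ 2 * D = ((q : ℤ) * k) ^ 2 * (p1 ^ 2 - 4 * (q : ℤ) * Z1 ^ 2 * L1) := by
        have h8 : (Z * g - Λ * m) = (q : ℤ) * ((k : ℤ) * p1) := by
          rw [← hp1, hZ1, hL1]; ring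
        rw [h8, hZ1, hL1] at he
        linear_combination he
      exact mul_left_cancel₀ (pow_ne_zero 2 (mul_ne_zero hn0 hk0)) h7
    have h7 : (q : ℤ) ∣ p1 := by
      apply hnp.dvd_of_dvd_pow (n := 2)
      have h8 : p1 ^ 2 = D + (q : ℤ) * (4 * Z1 ^ 2 * L1) := by rw [h6]; ring
      rw [h8]
      exact dvd_add ((dvd_pow_self _ (by norm_num)).trans hqD) (dvd_mul_right _ _)
    have h8 : (q : ℤ) ^ 2 ∣ (q : ℤ) * (4 * Z1 ^ 2 * L1) := by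
      have h9 : (q : ℤ) * (4 * Z1 ^ 2 * L1) = p1 ^ 2 - D := by rw [h6]; ring
      rw [h9]
      exact dvd_sub (pow_dvd_pow_of_dvd h7 2) hqD
    rw [sq, mul_dvd_mul_iff_left hn0] at h8
    rcases hnp.dvd_or_dvd h8 with h9 | h9
    · rcases hnp.dvd_or_dvd h9 with h10 | h10
      · exact hn4 h10
      · obtain ⟨c, hc⟩ := hnp.dvd_of_dvd_pow h10
        exact h.r1 ⟨c, by rw [hZ1, hc]; ring⟩
    · obtain ⟨c, hc⟩ := h9
      exact h.r3 ⟨c, by rw [hL1, hc]; ring⟩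
  -- q = k
  have hqk : q ≠ k := by
    rintro rfl
    have h1 : (q : ℤ) ∣ m := by
      apply hkp.dvd_of_dvd_pow (n := 2)
      have h2 := dvd_add h.e2 (Dvd.dvd.mul_right hZ ((n : ℤ) ^ 2))
      have h3 : m ^ 2 - Z * (n : ℤ) ^ 2 + Z * (n : ℤ) ^ 2 = m ^ 2 := by ring
      rwa [h3] at h2
    have h4 : (q : ℤ) ∣ Λ := by
      have h5 : (q : ℤ) ∣ Λ * (n : ℤ) ^ 2 := by
        have h6 : Λ * (n : ℤ) ^ 2 = m * g + Z * (q : ℤ) ^ 2 := by
          have := h.e1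
          linear_combination -this
        rw [h6]
        exact dvd_add (Dvd.dvd.mul_right h1 _) (Dvd.dvd.mul_right hZ _)
      rcases hkp.dvd_or_dvd h5 with h6 | h6
      · exact h6
      · exact absurd (hkp.dvd_of_dvd_pow h6) hkn
    obtain ⟨Z1, hZ1⟩ := hZ
    obtain ⟨L1, hL1⟩ := h4
    have he := TB_e4 h
    have h5 : (n : ℤ) ∣ Z1 * g + L1 * m := by
      have h6 : (n : ℤ) ^ 2 * (D * (q : ℤ) ^ 2 + 4 * Z * Λ ^ 2) = ((q : ℤ) * (Z1 * g + L1 * m)) ^ 2 := by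
        have h7 : (Z * g + Λ * m) = (q : ℤ) * (Z1 * g + L1 * m) := by
          rw [hZ1, hL1]; ring
        rw [← h7]
        linear_combination he
      have h8 : (n : ℤ) ∣ ((q : ℤ) * (Z1 * g + L1 * m)) ^ 2 := by
        rw [← h6]
        exact Dvd.dvd.mul_right (dvd_pow_self _ (by norm_num)) _
      have h9 := hnp.dvd_of_dvd_pow h8
      exact (hnp.dvd_or_dvd h9).resolve_left hnk
    obtain ⟨p1, hp1⟩ := h5
    have h6 : D = p1 ^ 2 - 4 * (q : ℤ) * Z1 * L1 ^ 2 := by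
      have h7 : ((n : ℤ) * q) ^ 2 * D = ((n : ℤ) * q) ^ 2 * (p1 ^ 2 - 4 * (q : ℤ) * Z1 * L1 ^ 2) := by
        have h8 : (Z * g + Λ * m) = (q : ℤ) * ((n : ℤ) * p1) := by
          rw [← hp1, hZ1, hL1]; ring
        rw [h8, hZ1, hL1] at he
        linear_combination he
      exact mul_left_cancel₀ (pow_ne_zero 2 (mul_ne_zero hn0 hk0)) h7
    have h7 : (q : ℤ) ∣ p1 := by
      apply hkp.dvd_of_dvd_pow (n := 2)
      have h8 : p1 ^ 2 = D + (q : ℤ) * (4 * Z1 * L1 ^ 2) := by rw [h6]; ring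
      rw [h8]
      exact dvd_add ((dvd_pow_self _ (by norm_num)).trans hqD) (dvd_mul_right _ _)
    have h8 : (q : ℤ) ^ 2 ∣ (q : ℤ) * (4 * Z1 * L1 ^ 2) := by
      have h9 : (q : ℤ) * (4 * Z1 * L1 ^ 2) = p1 ^ 2 - D := by rw [h6]; ring
      rw [h9]
      exact dvd_sub (pow_dvd_pow_of_dvd h7 2) hqD
    rw [sq, mul_dvd_mul_iff_left hk0] at h8
    rcases hkp.dvd_or_dvd h8 with h9 | h9
    · rcases hkp.dvd_or_dvd h9 with h10 | h10
      · exact hk4 h10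
      · obtain ⟨c, hc⟩ := h10
        exact h.r2 ⟨c, by rw [hZ1, hc]; ring⟩
    · obtain ⟨c, hc⟩ := hkp.dvd_of_dvd_pow h9
      exact h.r4 ⟨c, by rw [hL1, hc]; ring⟩
  -- otherwise
  have hqn' : ¬ (q : ℤ) ∣ (n : ℤ) := fun h1 =>
    hqn ((Nat.prime_dvd_prime_iff_eq hq h.hn).1 (by exact_mod_cast h1))
  have h1 : (q : ℤ) ∣ Z * g - Λ * m := by
    apply hqp.dvd_of_dvd_pow (n := 2)
    have h2 : (Z * g - Λ * m) ^ 2 = D * ((n : ℤ) * k) ^ 2 + Z * (4 * Z * Λ * (k : ℤ) ^ 2) := by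
      have := h.e4
      linear_combination -this
    rw [h2]
    exact dvd_add (Dvd.dvd.mul_right ((dvd_pow_self _ (by norm_num)).trans hqD) _)
      (Dvd.dvd.mul_right hZ _)
  have h2 : (q : ℤ) ∣ Λ * m := by
    have h3 := dvd_sub (Dvd.dvd.mul_right hZ g) h1
    have h4 : Z * g - (Z * g - Λ * m) = Λ * m := by ring
    rwa [h4] at h3
  have h3 : (q : ℤ) ∣ m * g := by
    have h4 : (q : ℤ) ∣ m * (m * g) := by
      have h5 : m * (m * g) = (Λ * m) * (n : ℤ) ^ 2 - Z * (m * (k : ℤ) ^ 2) := by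
        rw [h.e1]; ring
      rw [h5]
      exact dvd_sub (Dvd.dvd.mul_right h2 _) (Dvd.dvd.mul_right hZ _)
    rcases hqp.dvd_or_dvd h4 with h5 | h5
    · exact Dvd.dvd.mul_right h5 _
    · exact h5
  have h4 : (q : ℤ) ∣ Λ := by
    have h5 : (q : ℤ) ∣ Λ * (n : ℤ) ^ 2 := by
      have h6 : Λ * (n : ℤ) ^ 2 = m * g + Z * (k : ℤ) ^ 2 := by
        have := h.e1
        linear_combination -this
      rw [h6]
      exact dvd_add h3 (Dvd.dvd.mul_right hZ _)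
    rcases hqp.dvd_or_dvd h5 with h6 | h6
    · exact h6
    · exact absurd (hqp.dvd_of_dvd_pow h6) hqn'
  exact ⟨hqn, hqk, h4, h3⟩

/-- TB2 -/
theorem Tup.bad' {κ s n k : ℕ} {m g Z Λ D : ℤ} (h : Tup κ s n k m g Z Λ D) (f : ℕ) (D₀ : ℤ)
    (hD : D = (f : ℤ) ^ 2 * D₀) (q : ℕ) (hq : q.Prime) (hf : q ∣ f) (hΛ : (q : ℤ) ∣ Λ) :
    (q : ℤ) ∣ Z := by
  have hqp : Prime (q : ℤ) := Nat.prime_iff_prime_int.1 hq
  have hnp : Prime (n : ℤ) := Nat.prime_iff_prime_int.1 h.hn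
  have hkp : Prime (k : ℤ) := Nat.prime_iff_prime_int.1 h.hk
  obtain ⟨hκ, hn4, hk4⟩ := TB_ne h
  obtain ⟨hnk, hkn⟩ := TB_nk h
  have hqD : (q : ℤ) ^ 2 ∣ D := by
    rw [hD]
    exact Dvd.dvd.mul_right (pow_dvd_pow_of_dvd (by exact_mod_cast hf) 2) _
  have hn0 : (n : ℤ) ≠ 0 := hnp.ne_zero
  have hk0 : (k : ℤ) ≠ 0 := hkp.ne_zero
  have he1 : Z * (k : ℤ) ^ 2 = Λ * (n : ℤ) ^ 2 - m * g := by
    have := h.e1
    linear_combination this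
  by_cases hqn : q = n
  · subst hqn
    have h1 : (q : ℤ) ∣ g := by
      apply hnp.dvd_of_dvd_pow (n := 2)
      have h2 := dvd_add h.e3 (Dvd.dvd.mul_right hΛ ((k : ℤ) ^ 2))
      have h3 : g ^ 2 - Λ * (k : ℤ) ^ 2 + Λ * (k : ℤ) ^ 2 = g ^ 2 := by ring
      rwa [h3] at h2
    have h2 : (q : ℤ) ∣ Z * (k : ℤ) ^ 2 := by
      rw [he1]
      exact dvd_sub (Dvd.dvd.mul_right hΛ _) (Dvd.dvd.mul_left h1 _)
    rcases hnp.dvd_or_dvd h2 with h6 | h6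
    · exact h6
    · exact absurd (hnp.dvd_of_dvd_pow h6) hnk
  by_cases hqk : q = k
  · subst hqk
    have h1 : (q : ℤ) ∣ m * g := by
      rw [h.e1]
      exact dvd_sub (Dvd.dvd.mul_right hΛ _) (Dvd.dvd.mul_left (dvd_pow_self _ (by norm_num)) _)
    rcases hkp.dvd_or_dvd h1 with h2 | h2
    · have h3 : (q : ℤ) ∣ Z * (n : ℤ) ^ 2 := by
        have h4 := dvd_sub (dvd_pow h2 (n := 2) (by norm_num)) h.e2
        have h5 : m ^ 2 - (m ^ 2 - Z * (n : ℤ) ^ 2) = Z * (n : ℤ) ^ 2 := by ring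
        rwa [h5] at h4
      rcases hkp.dvd_or_dvd h3 with h6 | h6
      · exact h6
      · exact absurd (hkp.dvd_of_dvd_pow h6) hkn
    · obtain ⟨g1, hg1⟩ := h2
      obtain ⟨L1, hL1⟩ := hΛ
      have he := h.e4
      have h6 : D * (n : ℤ) ^ 2 = (Z * g1 - L1 * m) ^ 2 - (q : ℤ) * (4 * Z ^ 2 * L1) := by
        have h7 : (q : ℤ) ^ 2 * (D * (n : ℤ) ^ 2) =
            (q : ℤ) ^ 2 * ((Z * g1 - L1 * m) ^ 2 - (q : ℤ) * (4 * Z ^ 2 * L1)) := by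
          rw [hL1, hg1] at he
          linear_combination he
        exact mul_left_cancel₀ (pow_ne_zero 2 hk0) h7
      have hqDn : (q : ℤ) ^ 2 ∣ D * (n : ℤ) ^ 2 := Dvd.dvd.mul_right hqD _
      have h7 : (q : ℤ) ∣ Z * g1 - L1 * m := by
        apply hkp.dvd_of_dvd_pow (n := 2)
        have h8 : (Z * g1 - L1 * m) ^ 2 = D * (n : ℤ) ^ 2 + (q : ℤ) * (4 * Z ^ 2 * L1) := by
          rw [h6]; ring
        rw [h8]
        exact dvd_add ((dvd_pow_self _ (by norm_num)).trans hqDn) (dvd_mul_right _ _)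
      have h8 : (q : ℤ) ^ 2 ∣ (q : ℤ) * (4 * Z ^ 2 * L1) := by
        have h9 : (q : ℤ) * (4 * Z ^ 2 * L1) = (Z * g1 - L1 * m) ^ 2 - D * (n : ℤ) ^ 2 := by
          rw [h6]; ring
        rw [h9]
        exact dvd_sub (pow_dvd_pow_of_dvd h7 2) hqDn
      rw [sq, mul_dvd_mul_iff_left hk0] at h8
      rcases hkp.dvd_or_dvd h8 with h9 | h9
      · rcases hkp.dvd_or_dvd h9 with h10 | h10
        · exact absurd h10 hk4
        · exact hkp.dvd_of_dvd_pow h10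
      · obtain ⟨c, hc⟩ := h9
        exact absurd ⟨c, by rw [hL1, hc]; ring⟩ h.r4
  · have hqk' : ¬ (q : ℤ) ∣ (k : ℤ) := fun h1 =>
      hqk ((Nat.prime_dvd_prime_iff_eq hq h.hk).1 (by exact_mod_cast h1))
    have h1 : (q : ℤ) ∣ Z * g - Λ * m := by
      apply hqp.dvd_of_dvd_pow (n := 2)
      have h2 : (Z * g - Λ * m) ^ 2 = D * ((n : ℤ) * k) ^ 2 + Λ * (4 * Z ^ 2 * (k : ℤ) ^ 2) := by
        have := h.e4
        linear_combination -this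
      rw [h2]
      exact dvd_add (Dvd.dvd.mul_right ((dvd_pow_self _ (by norm_num)).trans hqD) _)
        (Dvd.dvd.mul_right hΛ _)
    have h2 : (q : ℤ) ∣ Z * g := by
      have h3 := dvd_add (Dvd.dvd.mul_right hΛ m) h1
      have h4 : Λ * m + (Z * g - Λ * m) = Z * g := by ring
      rwa [h4] at h3
    rcases hqp.dvd_or_dvd h2 with h3 | h3
    · exact h3
    · have h4 : (q : ℤ) ∣ Z * (k : ℤ) ^ 2 := by
        rw [he1]
        exact dvd_sub (Dvd.dvd.mul_right hΛ _) (Dvd.dvd.mul_left h3 _)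
      rcases hqp.dvd_or_dvd h4 with h6 | h6
      · exact h6
      · exact absurd (hqp.dvd_of_dvd_pow h6) hqk'

/-- TB3 -/
theorem Tup.good {κ s n k : ℕ} {m g Z Λ D : ℤ} (h : Tup κ s n k m g Z Λ D) (f : ℕ) (D₀ : ℤ)
    (hF : IsFund D₀) (hD : D = (f : ℤ) ^ 2 * D₀) (q : ℕ) (hq : q.Prime) (hf : ¬ q ∣ f)
    (hqn : q ≠ n) (hqk : q ≠ k) (hZ : (q : ℤ) ∣ Z) : ¬ (q : ℤ) ∣ m := by
  intro hm
  have hqp : Prime (q : ℤ) := Nat.prime_iff_prime_int.1 hq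
  have hnp : Prime (n : ℤ) := Nat.prime_iff_prime_int.1 h.hn
  have hkp : Prime (k : ℤ) := Nat.prime_iff_prime_int.1 h.hk
  have hqn' : ¬ (q : ℤ) ∣ (n : ℤ) := fun h1 =>
    hqn ((Nat.prime_dvd_prime_iff_eq hq h.hn).1 (by exact_mod_cast h1))
  have hqk' : ¬ (q : ℤ) ∣ (k : ℤ) := fun h1 =>
    hqk ((Nat.prime_dvd_prime_iff_eq hq h.hk).1 (by exact_mod_cast h1))
  have hqf' : ¬ (q : ℤ) ∣ (f : ℤ) := fun h1 => hf (by exact_mod_cast h1)
  have h4 : (q : ℤ) ∣ Λ := by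
    have h5 : (q : ℤ) ∣ Λ * (n : ℤ) ^ 2 := by
      have h6 : Λ * (n : ℤ) ^ 2 = m * g + Z * (k : ℤ) ^ 2 := by
        have := h.e1
        linear_combination -this
      rw [h6]
      exact dvd_add (Dvd.dvd.mul_right hm _) (Dvd.dvd.mul_right hZ _)
    rcases hqp.dvd_or_dvd h5 with h6 | h6
    · exact h6
    · exact absurd (hqp.dvd_of_dvd_pow h6) hqn'
  obtain ⟨Z1, hZ1⟩ := hZ
  obtain ⟨L1, hL1⟩ := h4
  obtain ⟨m1, hm1⟩ := hm
  have he := h.e4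
  rw [hD, hZ1, hL1, hm1] at he
  have hc : IsCoprime ((q : ℤ) ^ 2) (((f : ℤ) * (n * k)) ^ 2) := by
    apply IsCoprime.pow
    rw [Prime.coprime_iff_not_dvd hqp]
    intro h5
    rcases hqp.dvd_or_dvd h5 with h6 | h6
    · exact hqf' h6
    · rcases hqp.dvd_or_dvd h6 with h7 | h7
      · exact hqn' h7
      · exact hqk' h7
  have h5 : (q : ℤ) ^ 2 ∣ D₀ := by
    apply hc.dvd_of_dvd_mul_left
    refine ⟨(Z1 * g - q * L1 * m1) ^ 2 - 4 * q * Z1 ^ 2 * L1 * (k : ℤ) ^ 2, ?_⟩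
    linear_combination he
  rcases hF.sq_dvd h5 with h6 | ⟨m₀, hm₀, hm4, h6⟩
  · exact hqp.not_isUnit h6
  · have hq2 : q = 2 := by
      rcases h6 with h6 | h6
      · exact_mod_cast h6
      · omega
    subst hq2
    rw [hm₀] at he
    have h7 : m₀ * ((f : ℤ) * (n * k)) ^ 2 =
        (Z1 * g - 2 * L1 * m1) ^ 2 - 4 * (2 * Z1 ^ 2 * L1 * (k : ℤ) ^ 2) := by
      push_cast at he
      have h8 : (4 : ℤ) * (m₀ * ((f : ℤ) * (n * k)) ^ 2) =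
          4 * ((Z1 * g - 2 * L1 * m1) ^ 2 - 4 * (2 * Z1 ^ 2 * L1 * (k : ℤ) ^ 2)) := by
        linear_combination he
      exact mul_left_cancel₀ (by norm_num) h8
    have hodd : ¬ (2 : ℤ) ∣ ((f : ℤ) * (n * k)) := by
      intro h5
      have h5' : ((2 : ℕ) : ℤ) ∣ (f : ℤ) * (n * k) := h5
      rcases hqp.dvd_or_dvd h5' with h6 | h6
      · exact hqf' h6
      · rcases hqp.dvd_or_dvd h6 with h7 | h7
        · exact hqn' h7
        · exact hqk' h7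
    have h9 : ((f : ℤ) * (n * k)) ^ 2 % 4 = 1 := by
      generalize (f : ℤ) * (n * k) = x at hodd
      have : x % 4 = 1 ∨ x % 4 = 3 := by omega
      rcases this with h10 | h10 <;> simp [sq, Int.mul_emod, h10]
    have h10 : (Z1 * g - 2 * L1 * m1) ^ 2 % 4 = 0 ∨ (Z1 * g - 2 * L1 * m1) ^ 2 % 4 = 1 := by
      generalize Z1 * g - 2 * L1 * m1 = x
      have : x % 4 = 0 ∨ x % 4 = 1 ∨ x % 4 = 2 ∨ x % 4 = 3 := by omega
      rcases this with h10 | h10 | h10 | h10 <;> simp [sq, Int.mul_emod, h10]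
    have h11 : m₀ * ((f : ℤ) * (n * k)) ^ 2 % 4 = m₀ % 4 := by
      rw [Int.mul_emod, h9]
      simp
    rw [h7] at h11
    have h12 : ((Z1 * g - 2 * L1 * m1) ^ 2 - 4 * (2 * Z1 ^ 2 * L1 * (k : ℤ) ^ 2)) % 4 =
        (Z1 * g - 2 * L1 * m1) ^ 2 % 4 := by
      rw [Int.sub_mul_emod_self_left]
    rw [h12] at h11
    omega

/-- TB4 -/
theorem Tup.y_ne {κ s n k : ℕ} {m g Z Λ D : ℤ} (h : Tup κ s n k m g Z Λ D) :
    Z * (n : ℤ) ^ 2 - m ^ 2 ≠ 0 := by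
  intro h0
  have hnp : Prime (n : ℤ) := Nat.prime_iff_prime_int.1 h.hn
  obtain ⟨hnk, hkn⟩ := TB_nk h
  have hn0 : (n : ℤ) ≠ 0 := hnp.ne_zero
  have h1 : (n : ℤ) ∣ m := by
    apply hnp.dvd_of_dvd_pow (n := 2)
    have h2 : m ^ 2 = (n : ℤ) * (Z * n) := by linear_combination -h0
    rw [h2]
    exact dvd_mul_right _ _
  obtain ⟨m1, hm1⟩ := h1
  have h2 : Z = m1 ^ 2 := by
    have h3 : (n : ℤ) ^ 2 * Z = (n : ℤ) ^ 2 * m1 ^ 2 := by
      rw [hm1] at h0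
      linear_combination h0
    exact mul_left_cancel₀ (pow_ne_zero 2 hn0) h3
  have h3 : (n : ℤ) ∣ m1 := by
    have h4 : (n : ℤ) ∣ m1 ^ 2 * (k : ℤ) ^ 2 := by
      have h5 := h.e1
      rw [hm1, h2] at h5
      refine ⟨Λ * n - m1 * g, ?_⟩
      linear_combination h5
    rcases hnp.dvd_or_dvd h4 with h5 | h5
    · exact hnp.dvd_of_dvd_pow h5
    · exact absurd (hnp.dvd_of_dvd_pow h5) hnk
  refine h.r5 ⟨?_, ?_⟩
  · rw [h2]
    exact dvd_pow h3 (by norm_num)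
  · rw [hm1]
    exact dvd_mul_right _ _

end Pool.Agent.helper28.LT
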