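import Pool.Agent.helper62.LT.SN
import Pool.Agent.helper9.LT.WC
import Pool.Agent.helper63.LT.RE
import Pool.Agent.helper17.LT.CL
import Pool.Agent.helper64.LT.FL

set_option autoImplicit false

/-!
# The lower bound for the number of all tuples
-/

namespace Pool.Agent.helper28.LT

open Finset NumberField Pool.Agent.helper3.FT Pool.Agent.helper47.RA

lemma LO_mem_PP {κ : ℕ} {p : ℕ × ℕ} (hp : p ∈ PP κ) :
    4 * κ < p.1 ∧ p.1 ≤ 8 * κ ∧ 4 * κ < p.2 ∧ p.2 ≤ 8 * κ ∧ p.1.Prime ∧ p.2.Prime ∧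
      p.1 ≠ p.2 := by
  simp only [PP, mem_filter, mem_product, mem_Ioc] at hp
  tauto

lemma LO_PP_sub (κ q : ℕ) (h : ∀ p ∈ PP κ, Nat.Coprime q p.1) :
    PP κ ⊆ (pairs (8 * κ) (8 * κ) 1).filter (fun p => Nat.Coprime q p.1) := by
  intro p hp
  obtain ⟨h1, h2, h3, h4, h5, h6, h7⟩ := LO_mem_PP hp
  simp only [pairs, mem_filter, mem_product, mem_Icc]
  refine ⟨⟨⟨⟨h5.one_lt.le, h2⟩, ⟨h6.one_lt.le, h4⟩⟩, by omega, by omega,
    (Nat.coprime_primes h5 h6).2 h7, one_dvd _⟩, h p hp⟩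

lemma LO_card (κ s P : ℕ) :
    (TT κ s P).card = ∑ p ∈ PP κ, (fib 1 P (κ ^ 2 * s) (κ ^ 2 * s) 1 1
      ((64 * κ ^ 2 * s ^ 2 : ℕ) : ℤ) (64 * κ ^ 2 * s ^ 2) p.1 p.2).card := by
  classical
  unfold TT fib
  rw [Finset.card_filter, Finset.sum_product]
  refine Finset.sum_congr rfl fun p _ => ?_
  rw [Finset.card_filter]
  have e1 : Icc (64 * (κ : ℤ) ^ 2 * s ^ 2) (128 * (κ : ℤ) ^ 2 * s ^ 2) =
      Icc ((64 * κ ^ 2 * s ^ 2 : ℕ) : ℤ)
        (((64 * κ ^ 2 * s ^ 2 : ℕ) : ℤ) + ((64 * κ ^ 2 * s ^ 2 : ℕ) : ℤ)) := by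
    push_cast
    congr 1
    ring
  rw [← e1]
  refine Finset.sum_congr rfl fun t _ => ?_
  simp only [Nat.cast_one, one_mul]

/-- the norm of one exponential sum -/
lemma LO_norm (C : ℝ) (hC : 0 ≤ C) (M G P : ℕ) (r r' : ℤ) (a b c : ℝ)
    (hM : 1 ≤ M) (hG : 1 ≤ G)
    (h : ‖ESc M G P r r' a b c‖ ^ 2 ≤
      C * (1 + Real.log M) * (1 + Real.log G) * M * G * ((nearPts M G a b c).card : ℝ)) :
    ‖ESc M G P r r' a b c‖ ≤
      √(C * (1 + Real.log M) * (1 + Real.log G) * M * G) * √((nearPts M G a b c).card : ℝ) := by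
  have h1 : 0 ≤ Real.log M := Real.log_nonneg (by exact_mod_cast hM)
  have h2 : 0 ≤ Real.log G := Real.log_nonneg (by exact_mod_cast hG)
  rw [← Real.sqrt_mul (by positivity)]
  exact Real.le_sqrt_of_sq_le h

/-- LO -/
theorem low_total (P : ℕ) (hP : 1 ≤ P) (ε : ℝ) (hε : 0 < ε) : ∃ C : ℝ, 1 ≤ C ∧ ∀ κ s : ℕ,
    1 ≤ s → 10 * s ^ 2 ≤ κ → P ≤ κ →
    ((PP κ).card : ℝ) * ((κ : ℝ) ^ 2 * (s : ℝ) ^ 4 / (300 * (P : ℝ) ^ 2)) -
      C * (κ : ℝ) ^ ε * ((κ : ℝ) ^ 4 * s) ≤ ((TT κ s P).card : ℝ) := by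
  classical
  set δ := ε / 6 with hδdef
  have hδ : 0 < δ := by positivity
  obtain ⟨C1, hC1, hW⟩ := weyl_near
  obtain ⟨C2, hC2, hS⟩ := sum_near (ε / 2) (by positivity)
  set CC : ℝ := √C1 * (1 + 1 / δ) * C2 + 1 with hCC
  refine ⟨CC, by
    rw [hCC]
    have : 0 ≤ √C1 * (1 + 1 / δ) * C2 := by positivity
    linarith, ?_⟩
  intro κ s hs hsκ hPκ
  have hκ : 1 ≤ κ := hP.trans hPκ
  have hs2 : s ≤ s ^ 2 := Nat.le_self_pow (by norm_num) s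
  have hsκ' : s ≤ κ := by omega
  have hs2κ : s ^ 2 ≤ κ ^ 2 := Nat.pow_le_pow_left hsκ' 2
  have hκR : (1 : ℝ) ≤ κ := by exact_mod_cast hκ
  have hsR : (1 : ℝ) ≤ s := by exact_mod_cast hs
  have hPR : (1 : ℝ) ≤ P := by exact_mod_cast hP
  -- sizes
  set M : ℕ := κ ^ 2 * s with hM
  set W : ℕ := 64 * κ ^ 2 * s ^ 2 with hWd
  set H : ℕ := 128 * κ ^ 2 / s ^ 2 + 1 with hH
  have hs2pos : 0 < s ^ 2 := Nat.pow_pos hs
  have hH1 : 1 ≤ H := by rw [hH]; exact Nat.le_add_left _ _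
  have hHlow : 128 * κ ^ 2 ≤ H * s ^ 2 := by
    have h1 := (Nat.lt_mul_div_succ (128 * κ ^ 2) hs2pos).le
    rw [hH, mul_comm (128 * κ ^ 2 / s ^ 2 + 1) (s ^ 2)]
    exact h1
  have hHup : H * s ^ 2 ≤ 129 * κ ^ 2 := by
    have h1 : 128 * κ ^ 2 / s ^ 2 * s ^ 2 ≤ 128 * κ ^ 2 := Nat.div_mul_le_self _ _
    rw [hH, add_mul, one_mul]
    omega
  have hκκ : κ ≤ κ ^ 2 := Nat.le_self_pow (by norm_num) κ
  have hM1 : 1 ≤ M := by rw [hM]; exact Nat.mul_pos (by omega) hs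
  have hPM : P ≤ M := by
    rw [hM]
    exact hPκ.trans (hκκ.trans (Nat.le_mul_of_pos_right _ hs))
  have hMR : (1 : ℝ) ≤ M := by exact_mod_cast hM1
  have hMRe : (M : ℝ) = (κ : ℝ) ^ 2 * s := by rw [hM]; push_cast; ring
  have hHR : (0 : ℝ) < H := by exact_mod_cast hH1
  have hHlowR : 128 * (κ : ℝ) ^ 2 ≤ H * (s : ℝ) ^ 2 := by exact_mod_cast hHlow
  have hHupR : (H : ℝ) * (s : ℝ) ^ 2 ≤ 129 * (κ : ℝ) ^ 2 := by exact_mod_cast hHup
  -- the residues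
  have hres : ∀ p : ℕ × ℕ, ∃ t : ℤ × ℤ × ℤ, 1 ≤ p.1 → 1 ≤ p.2 → Nat.Coprime p.1 p.2 →
      Nat.Coprime 1 p.1 → ResQ p.1 p.2 ((1 : ℕ) : ℤ) t.1 t.2.1 t.2.2 := by
    intro p
    by_cases h : 1 ≤ p.1 ∧ 1 ≤ p.2 ∧ Nat.Coprime p.1 p.2
    · obtain ⟨α, β, γ, hr⟩ := exists_resQ p.1 p.2 ((1 : ℕ) : ℤ)
        (by have := h.1; omega) (by have := h.2.1; omega)
        (Nat.isCoprime_iff_coprime.2 h.2.2) (by rw [Nat.cast_one]; exact isCoprime_one_left)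
      exact ⟨(α, β, γ), fun _ _ _ _ => hr⟩
    · exact ⟨(0, 0, 0), fun h1 h2 h3 => absurd ⟨h1, h2, h3⟩ h⟩
  choose r hr using hres
  -- the bound for one pair
  set K1 : ℝ := √(C1 * (1 + Real.log M) * (1 + Real.log M) * M * M) with hK1
  have hlogM : 0 ≤ Real.log M := Real.log_nonneg hMR
  have hK1e : K1 = √C1 * ((1 + Real.log M) * M) := by
    have e1 : C1 * (1 + Real.log M) * (1 + Real.log M) * M * M =
        C1 * ((1 + Real.log M) * M) ^ 2 := by ring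
    rw [hK1, e1, Real.sqrt_mul (by linarith), Real.sqrt_sq (by positivity)]
  have hpair : ∀ p ∈ PP κ, (κ : ℝ) ^ 2 * (s : ℝ) ^ 4 / (300 * (P : ℝ) ^ 2) -
      4 / H * (K1 * ∑ h ∈ Icc 1 (2 * H), √(nearN M M r h p)) ≤
      ((fib 1 P M M 1 1 (W : ℤ) W p.1 p.2).card : ℝ) := by
    intro p hp
    obtain ⟨h1, h2, h3, h4, h5, h6, h7⟩ := LO_mem_PP hp
    have hcop := (Nat.coprime_primes h5 h6).2 h7
    have hn3k : p.1 ^ 3 * p.2 ≤ 4096 * κ ^ 4 := by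
      calc p.1 ^ 3 * p.2 ≤ (8 * κ) ^ 3 * (8 * κ) :=
            Nat.mul_le_mul (Nat.pow_le_pow_left h2 3) h4
        _ = 4096 * κ ^ 4 := by ring
    have hn3k' : 256 * κ ^ 4 ≤ p.1 ^ 3 * p.2 := by
      calc 256 * κ ^ 4 = (4 * κ) ^ 3 * (4 * κ) := by ring
        _ ≤ _ := Nat.mul_le_mul (Nat.pow_le_pow_left h1.le 3) h3.le
    have hWq : W < p.1 ^ 3 * p.2 := by
      have h8 : W ≤ 64 * κ ^ 4 := by
        calc W = 64 * (κ ^ 2 * s ^ 2) := by rw [hWd]; ring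
          _ ≤ 64 * (κ ^ 2 * κ ^ 2) := Nat.mul_le_mul_left _ (Nat.mul_le_mul_left _ hs2κ)
          _ = _ := by ring
      have h9 : 0 < κ ^ 4 := Nat.pow_pos hκ
      omega
    have hHW : 2 * (p.1 ^ 3 * p.2) ≤ H * W := by
      calc 2 * (p.1 ^ 3 * p.2) ≤ 2 * (4096 * κ ^ 4) := Nat.mul_le_mul_left _ hn3k
        _ = (128 * κ ^ 2) * (64 * κ ^ 2) := by ring
        _ ≤ (H * s ^ 2) * (64 * κ ^ 2) := Nat.mul_le_mul_right _ hHlow
        _ = H * W := by rw [hWd]; ring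
    have hr' : ResQ p.1 p.2 1 (r p).1 (r p).2.1 (r p).2.2 := by
      have := hr p h5.one_lt.le h6.one_lt.le hcop (Nat.coprime_one_left _)
      rwa [Nat.cast_one] at this
    have hfl := fib_low p.1 p.2 M P W H h5.one_lt.le h6.one_lt.le hcop
      (by rw [hWd]; exact Nat.mul_pos (Nat.mul_pos (by norm_num) (Nat.pow_pos hκ)) hs2pos) hWq hHW
      (r p).1 (r p).2.1 (r p).2.2 hr' 1 1 (W : ℤ)
    refine le_trans (sub_le_sub ?_ ?_) hfl
    · have h8 := le_cls_card M P hP hPM 1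
      have h9 : ((M : ℝ) / P) * ((M : ℝ) / P) ≤
          (((cls M P 1).card * (cls M P 1).card : ℕ) : ℝ) := by
        push_cast
        exact mul_le_mul h8 h8 (by positivity) (by positivity)
      refine le_trans ?_ (div_le_div_of_nonneg_right h9 (by positivity))
      have h10 : (M : ℝ) / P * (M / P) / (2 * H) =
          (κ : ℝ) ^ 4 * (s : ℝ) ^ 2 / (2 * (P : ℝ) ^ 2 * H) := by
        rw [hMRe]; field_simp
      rw [h10, div_le_div_iff₀ (by positivity) (by positivity)]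
      calc (κ : ℝ) ^ 2 * (s : ℝ) ^ 4 * (2 * (P : ℝ) ^ 2 * H) =
            2 * (P : ℝ) ^ 2 * (κ : ℝ) ^ 2 * (s : ℝ) ^ 2 * (H * (s : ℝ) ^ 2) := by ring
        _ ≤ 2 * (P : ℝ) ^ 2 * (κ : ℝ) ^ 2 * (s : ℝ) ^ 2 * (129 * (κ : ℝ) ^ 2) :=
            mul_le_mul_of_nonneg_left hHupR (by positivity)
        _ = 258 * ((κ : ℝ) ^ 4 * (s : ℝ) ^ 2 * (P : ℝ) ^ 2) := by ring
        _ ≤ 300 * ((κ : ℝ) ^ 4 * (s : ℝ) ^ 2 * (P : ℝ) ^ 2) :=
            mul_le_mul_of_nonneg_right (by norm_num) (by positivity)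
        _ = _ := by ring
    · refine mul_le_mul_of_nonneg_left ?_ (by positivity)
      rw [Finset.mul_sum]
      refine (Finset.sum_le_sum fun h _ => ?_).trans
        (Finset.sum_le_sum_of_subset_of_nonneg (s := Ico 1 (2 * H)) ?_
          (fun _ _ _ => mul_nonneg (Real.sqrt_nonneg _) (Real.sqrt_nonneg _)))
      · exact LO_norm C1 (by linarith) M M P 1 1 _ _ _ hM1 hM1 (hW M M P hM1 hM1 hP 1 1 _ _ _)
      · intro h hh
        rw [mem_Ico] at hh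
        rw [mem_Icc]
        exact ⟨hh.1, hh.2.le⟩
  -- the sum over the pairs
  have hSN := hS κ s 1 (2 * H) M hs hsκ' le_rfl hκ hM1 (by rw [one_mul]) (by
      rw [← hM]; omega) (by
      calc 2 * H * s ^ 2 = 2 * (H * s ^ 2) := by ring
        _ ≤ 2 * (129 * κ ^ 2) := Nat.mul_le_mul_left _ hHup
        _ ≤ 300 * 1 * κ ^ 2 := by
          rw [mul_one, ← mul_assoc]; exact Nat.mul_le_mul_right _ (by norm_num)) r hr
  rw [← hM] at hSN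
  have hsub : ∑ p ∈ PP κ, ∑ h ∈ Icc 1 (2 * H), √(nearN M M r h p) ≤
      ∑ p ∈ (pairs (8 * κ) (8 * κ) 1).filter (fun p => Nat.Coprime 1 p.1),
        ∑ h ∈ Icc 1 (2 * H), √(nearN M M r h p) :=
    Finset.sum_le_sum_of_subset_of_nonneg (LO_PP_sub κ 1 fun p _ => Nat.coprime_one_left _)
      fun p _ _ => Finset.sum_nonneg fun h _ => Real.sqrt_nonneg _
  have hSN2 : ∑ p ∈ PP κ, ∑ h ∈ Icc 1 (2 * H), √(nearN M M r h p) ≤
      2 * C2 * (κ : ℝ) ^ (ε / 2) * ((κ : ℝ) ^ 4 / (s : ℝ) ^ 2) := by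
    refine (hsub.trans hSN).trans ?_
    rw [Nat.cast_one, Real.one_rpow, Real.sqrt_one, one_mul]
    have h1 : 1 + 1 / (s : ℝ) ≤ 2 := by
      have : 1 / (s : ℝ) ≤ 1 := by
        rw [div_le_one (by linarith)]; exact hsR
      linarith
    calc C2 * (κ : ℝ) ^ (ε / 2) * ((κ : ℝ) ^ 4 / (s : ℝ) ^ 2 * (1 + 1 / (s : ℝ))) ≤
          C2 * (κ : ℝ) ^ (ε / 2) * ((κ : ℝ) ^ 4 / (s : ℝ) ^ 2 * 2) := by
          refine mul_le_mul_of_nonneg_left (mul_le_mul_of_nonneg_left h1 (by positivity))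
            (by positivity)
      _ = _ := by ring
  have hlog : 1 + Real.log M ≤ (1 + 1 / δ) * (κ : ℝ) ^ (ε / 2) := by
    refine (one_add_log_le δ hδ M hMR).trans (mul_le_mul_of_nonneg_left ?_ (by positivity))
    have h1 : (M : ℝ) ≤ (κ : ℝ) ^ 3 := by
      have : M ≤ κ ^ 3 := by
        rw [hM, pow_succ]
        exact Nat.mul_le_mul_left _ hsκ'
      exact_mod_cast this
    calc (M : ℝ) ^ δ ≤ ((κ : ℝ) ^ 3) ^ δ := Real.rpow_le_rpow (by linarith) h1 hδ.le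
      _ = (κ : ℝ) ^ (ε / 2) := by
        rw [← Real.rpow_natCast, ← Real.rpow_mul (by linarith)]
        congr 1
        rw [hδdef]; push_cast; ring
  have herr : 4 / H * (K1 * ∑ p ∈ PP κ, ∑ h ∈ Icc 1 (2 * H), √(nearN M M r h p)) ≤
      CC * (κ : ℝ) ^ ε * ((κ : ℝ) ^ 4 * s) := by
    have h1 : 4 / (H : ℝ) ≤ (s : ℝ) ^ 2 / (32 * (κ : ℝ) ^ 2) := by
      rw [div_le_div_iff₀ hHR (by positivity)]
      linarith
    have h2 : K1 ≤ √C1 * (((1 + 1 / δ) * (κ : ℝ) ^ (ε / 2)) * ((κ : ℝ) ^ 2 * s)) := by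
      rw [hK1e, hMRe]
      refine mul_le_mul_of_nonneg_left ?_ (Real.sqrt_nonneg _)
      rw [← hMRe]
      exact mul_le_mul_of_nonneg_right hlog (by positivity)
    have h3 : (κ : ℝ) ^ ε = (κ : ℝ) ^ (ε / 2) * (κ : ℝ) ^ (ε / 2) := by
      rw [← Real.rpow_add (by linarith)]
      congr 1; ring
    calc 4 / H * (K1 * ∑ p ∈ PP κ, ∑ h ∈ Icc 1 (2 * H), √(nearN M M r h p)) ≤
          ((s : ℝ) ^ 2 / (32 * (κ : ℝ) ^ 2)) *
          ((√C1 * (((1 + 1 / δ) * (κ : ℝ) ^ (ε / 2)) * ((κ : ℝ) ^ 2 * s))) *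
            (2 * C2 * (κ : ℝ) ^ (ε / 2) * ((κ : ℝ) ^ 4 / (s : ℝ) ^ 2))) := by
          refine mul_le_mul h1 (mul_le_mul h2 hSN2 (Finset.sum_nonneg fun p _ =>
            Finset.sum_nonneg fun h _ => Real.sqrt_nonneg _) (by positivity)) ?_ (by positivity)
          exact mul_nonneg (by rw [hK1]; exact Real.sqrt_nonneg _) (Finset.sum_nonneg fun p _ =>
            Finset.sum_nonneg fun h _ => Real.sqrt_nonneg _)
      _ = (√C1 * (1 + 1 / δ) * C2 / 16) * ((κ : ℝ) ^ ε * ((κ : ℝ) ^ 4 * s)) := by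
          rw [h3]; field_simp; ring
      _ ≤ CC * ((κ : ℝ) ^ ε * ((κ : ℝ) ^ 4 * s)) := by
          refine mul_le_mul_of_nonneg_right ?_ (by positivity)
          have : 0 ≤ √C1 * (1 + 1 / δ) * C2 := by positivity
          rw [hCC]; linarith
      _ = _ := by ring
  rw [LO_card, Nat.cast_sum]
  refine le_trans ?_ (Finset.sum_le_sum hpair)
  rw [Finset.sum_sub_distrib, Finset.sum_const, nsmul_eq_mul, ← Finset.mul_sum, ← Finset.mul_sum]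
  exact sub_le_sub_left herr _

end Pool.Agent.helper28.LT
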